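import Pool.Agent.helper1.PR.Defs

/-! [PR-C] finite Ramsey theorem for pairs and pigeonhole in a grid.  helper4 -/

set_option autoImplicit false

namespace Pool.Agent.helper1.PR

open Finset

private theorem end_homog (κ : Type) [Finite κ] (n : ℕ) : ∃ M : ℕ, ∀ c : ℕ → ℕ → κ,
    ∀ A : Finset ℕ, M ≤ #A → ∃ B ⊆ A, #B = n ∧
      ∀ a ∈ B, ∀ b ∈ B, ∀ b' ∈ B, a < b → a < b' → c a b = c a b' := by
  classical
  have := Fintype.ofFinite κ
  induction n with
  | zero => exact ⟨0, fun c A _ => ⟨∅, empty_subset _, rfl, by simp⟩⟩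
  | succ n ih =>
    obtain ⟨M, hM⟩ := ih
    refine ⟨Fintype.card κ * M + 1, fun c A hA => ?_⟩
    have hne : A.Nonempty := card_pos.1 (by omega)
    set a := A.min' hne with ha
    have haA : a ∈ A := A.min'_mem hne
    have hlt : ∀ b ∈ A.erase a, a < b := fun b hb =>
      lt_of_le_of_ne (A.min'_le b (mem_of_mem_erase hb)) (ne_of_mem_erase hb).symm
    have hcard : Fintype.card κ * M ≤ #(A.erase a) := by
      rw [card_erase_of_mem haA]; omega
    have hκ : (univ : Finset κ).Nonempty := ⟨c 0 0, mem_univ _⟩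
    obtain ⟨i, -, hi⟩ := exists_le_card_fiber_of_mul_le_card_of_maps_to
      (s := A.erase a) (t := (univ : Finset κ)) (f := fun b => c a b) (fun _ _ => mem_univ _) hκ
      (n := M) (by rw [card_univ]; exact hcard)
    obtain ⟨B, hB, hBn, hBh⟩ := hM c _ hi
    have haB : a ∉ B := fun h => by
      have := hB h
      simp at this
    refine ⟨insert a B, ?_, ?_, ?_⟩
    · intro b hb
      rcases mem_insert.1 hb with rfl | hb
      · exact haA
      · exact mem_of_mem_erase (mem_of_mem_filter _ (hB hb))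
    · rw [card_insert_of_notMem haB, hBn]
    · intro x hx b hb b' hb' h1 h2
      rcases mem_insert.1 hx with rfl | hx
      · have hb1 : b ∈ B := by
          rcases mem_insert.1 hb with h | h
          · omega
          · exact h
        have hb2 : b' ∈ B := by
          rcases mem_insert.1 hb' with h | h
          · omega
          · exact h
        rw [(mem_filter.1 (hB hb1)).2, (mem_filter.1 (hB hb2)).2]
      · have hax : a < x := hlt x (mem_of_mem_filter _ (hB hx))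
        have hb1 : b ∈ B := by
          rcases mem_insert.1 hb with h | h
          · omega
          · exact h
        have hb2 : b' ∈ B := by
          rcases mem_insert.1 hb' with h | h
          · omega
          · exact h
        exact hBh x hx b hb1 b' hb2 h1 h2

theorem ramsey (κ : Type) [Finite κ] (k : ℕ) : ∃ N : ℕ, ∀ c : ℕ → ℕ → κ,
    ∃ X ⊆ range N, #X = k ∧ ∃ i, ∀ a ∈ X, ∀ b ∈ X, a < b → c a b = i := by
  classical
  have := Fintype.ofFinite κ
  obtain ⟨N, hN⟩ := end_homog κ (Fintype.card κ * k)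
  refine ⟨N, fun c => ?_⟩
  obtain ⟨B, hB, hBn, hBh⟩ := hN c (range N) (by simp)
  have hκ : (univ : Finset κ).Nonempty := ⟨c 0 0, mem_univ _⟩
  obtain ⟨i, -, hi⟩ := exists_le_card_fiber_of_mul_le_card_of_maps_to
      (s := B) (t := (univ : Finset κ))
      (f := fun a => if h : ∃ b ∈ B, a < b then c a h.choose else c 0 0) (fun _ _ => mem_univ _) hκ
      (n := k) (by rw [card_univ, hBn])
  obtain ⟨X, hX, hXk⟩ := exists_subset_card_eq hi
  refine ⟨X, fun a ha => hB (mem_of_mem_filter _ (hX ha)), hXk, i, fun a ha b hb hab => ?_⟩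
  have haB := mem_of_mem_filter _ (hX ha)
  have hbB := mem_of_mem_filter _ (hX hb)
  have h1 := (mem_filter.1 (hX ha)).2
  have hex : ∃ b ∈ B, a < b := ⟨b, hbB, hab⟩
  simp only [hex, ↓reduceDIte] at h1
  rw [← h1]
  exact hBh a haB b hbB _ hex.choose_spec.1 hab hex.choose_spec.2

open Classical in
theorem grid_pigeon {κ : Type} [Finite κ] {ν : ℝ} (hν : 0 < ν) : ∃ n k : ℕ, 0 < n ∧ 0 < k ∧
    ∀ (A B : Finset ℕ), #A = n → #B = k → ∀ (good : ℕ → ℕ → Prop) (p : ℕ → ℕ → κ),
      ν * #(A ×ˢ B) ≤ (#{x ∈ A ×ˢ B | good x.1 x.2} : ℝ) →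
      ∃ a ∈ A, ∃ b ∈ A, a < b ∧ ∃ e ∈ B, ∃ e' ∈ B, e < e' ∧ good a e ∧ good b e ∧ good b e' ∧
        p a e = p b e ∧ p b e = p b e' := by
  have := Fintype.ofFinite κ
  set K := Fintype.card κ with hK
  obtain ⟨m, hm⟩ := exists_nat_gt (2 * (K : ℝ) / ν)
  have hm0 : 0 < m := by
    have h1 : (0:ℝ) ≤ 2 * (K : ℝ) / ν := by positivity
    have h2 : (0:ℝ) < m := lt_of_le_of_lt h1 hm
    exact_mod_cast h2
  refine ⟨m, m, hm0, hm0, fun A B hA hB good p h => ?_⟩
  have hmK : 2 * (K : ℝ) < ν * m := by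
    rw [div_lt_iff₀ hν] at hm; linarith
  set Rem := {x ∈ A ×ˢ B | good x.1 x.2 ∧ ∃ e' ∈ B, x.2 < e' ∧ good x.1 e' ∧ p x.1 e' = p x.1 x.2}
    with hRem
  have h1 : #{x ∈ A ×ˢ B | good x.1 x.2} ≤ #Rem + m * K := by
    have hsub : {x ∈ A ×ˢ B | good x.1 x.2} ⊆ Rem ∪ ({x ∈ A ×ˢ B | good x.1 x.2} \ Rem) := by
      intro x hx
      by_cases hxR : x ∈ Rem
      · exact mem_union_left _ hxR
      · exact mem_union_right _ (mem_sdiff.2 ⟨hx, hxR⟩)
    refine (card_le_card hsub).trans ((card_union_le _ _).trans ?_)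
    gcongr
    have h2 : #({x ∈ A ×ˢ B | good x.1 x.2} \ Rem) ≤ #(A ×ˢ (univ : Finset κ)) := by
      refine card_le_card_of_injOn (fun x => (x.1, p x.1 x.2)) ?_ ?_
      · intro x hx
        have hx1 := mem_filter.1 (mem_sdiff.1 hx).1
        exact mem_coe.2 (mem_product.2 ⟨(mem_product.1 hx1.1).1, mem_univ _⟩)
      · rintro ⟨a, e⟩ hx ⟨a', e'⟩ hy hxy
        simp only [Prod.mk.injEq] at hxy
        obtain ⟨rfl, hp⟩ := hxy
        have hx1 := mem_filter.1 (mem_sdiff.1 (mem_coe.1 hx)).1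
        have hy1 := mem_filter.1 (mem_sdiff.1 (mem_coe.1 hy)).1
        have hx2 := (mem_sdiff.1 (mem_coe.1 hx)).2
        have hy2 := (mem_sdiff.1 (mem_coe.1 hy)).2
        rcases lt_trichotomy e e' with hlt | heq | hlt
        · exfalso
          apply hx2
          rw [hRem, mem_filter]
          exact ⟨hx1.1, hx1.2, e', (mem_product.1 hy1.1).2, hlt, hy1.2, hp.symm⟩
        · rw [heq]
        · exfalso
          apply hy2
          rw [hRem, mem_filter]
          exact ⟨hy1.1, hy1.2, e, (mem_product.1 hx1.1).2, hlt, hx1.2, hp⟩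
    rwa [card_product, hA, card_univ, ← hK] at h2
  have h2 : ν * ((m : ℝ) * m) ≤ #Rem + m * K := by
    rw [card_product, hA, hB] at h
    push_cast at h
    have h3 : (#{x ∈ A ×ˢ B | good x.1 x.2} : ℝ) ≤ #Rem + m * K := by exact_mod_cast h1
    linarith
  -- a column with more than `K` points
  have h3 : m * K < #Rem := by
    have hmpos : (0:ℝ) < m := by exact_mod_cast hm0
    have : (m : ℝ) * K < #Rem := by nlinarith
    exact_mod_cast this
  have h4 : ∃ e ∈ B, K < #{x ∈ Rem | x.2 = e} := by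
    have hmaps : ∀ x ∈ Rem, x.2 ∈ B := fun x hx => (mem_product.1 (mem_filter.1 hx).1).2
    obtain ⟨e, he, hlt⟩ := exists_lt_card_fiber_of_mul_lt_card_of_maps_to (n := K) hmaps
      (by rw [hB]; exact h3)
    exact ⟨e, he, hlt⟩
  obtain ⟨e, heB, he⟩ := h4
  have h5 : ∃ x ∈ {x ∈ Rem | x.2 = e}, ∃ y ∈ {x ∈ Rem | x.2 = e}, x ≠ y ∧
      p x.1 x.2 = p y.1 y.2 := by
    refine exists_ne_map_eq_of_card_lt_of_maps_to (t := (univ : Finset κ)) ?_
      (f := fun x : ℕ × ℕ => p x.1 x.2) (fun _ _ => mem_univ _)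
    rw [card_univ]; exact he
  obtain ⟨⟨a, e1⟩, hx, ⟨b, e2⟩, hy, hne, hp⟩ := h5
  rw [mem_filter] at hx hy
  obtain ⟨hx1, rfl⟩ := hx
  obtain ⟨hy1, hy2⟩ := hy
  simp only at hy2 hp
  subst hy2
  rw [hRem, mem_filter] at hx1 hy1
  obtain ⟨hx3, hx4, ex, hex, hexl, hexg, hexp⟩ := hx1
  obtain ⟨hy3, hy4, ey, hey, heyl, heyg, heyp⟩ := hy1
  simp only at hx4 hexl hexg hexp hy4 heyl heyg heyp
  have hab : a ≠ b := fun h => hne (by rw [h])
  have ha := (mem_product.1 hx3).1
  have hb := (mem_product.1 hy3).1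
  have he := (mem_product.1 hx3).2
  rcases lt_or_gt_of_ne hab with hlt | hlt
  · exact ⟨a, ha, b, hb, hlt, _, he, ey, hey, heyl, hx4, hy4, heyg, hp, heyp.symm⟩
  · exact ⟨b, hb, a, ha, hlt, _, he, ex, hex, hexl, hy4, hx4, hexg, hp.symm, hexp.symm⟩

end Pool.Agent.helper1.PR
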